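import Pool.Agent.W559.Et.Stm

/-!
MODEL and AFF: an atlas without gradings gives a projective model, and a resolution over an affine
base.
-/

set_option autoImplicit false
set_option linter.unusedSectionVars false

open AlgebraicGeometry CategoryTheory

universe u v w

namespace Pool.Agent.W440.ET

open Pool.Agent.W559.Mg Pool.Agent.W559.Et

section core

variable {k K : Type u} [Field k] [Field K] [Algebra k K] {𝒱 : Set (ValuationSubring K)}
  {Kf : Subfield K} {𝒜 : Type} {W : 𝒜 → Set K} {T : Type u} [Finite T] {E : ℕ}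
  {C : T → Subalgebra k (ML K Unit)} {H : T → K}

/-- generators and a common exponent -/
theorem core (h : MB 𝒱 Kf W E C H) : ∃ (G : T → Finset K) (M : ℕ),
    (∀ t, Algebra.adjoin k (G t : Set K) = d0 (C t)) ∧
    (∀ t t', mo 0 (H t' ^ M / H t ^ M) ∈ C t) ∧
    (∀ t', ∀ x ∈ G t', ∀ t, mo 0 (H t' ^ M * x / H t ^ M) ∈ C t) := by
  classical
  have : Fintype T := Fintype.ofFinite T
  have hsm : ∀ t, Algebra.Smooth k (d0 (C t)) := fun t => smooth_d0 (h.sm t)
  have hfg : ∀ t, ∃ G : Finset K, Algebra.adjoin k (G : Set K) = d0 (C t) := by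
    intro t
    have h1 := hsm t
    have h2 : Algebra.FiniteType k (d0 (C t)) := inferInstance
    obtain ⟨G, hG⟩ := (Subalgebra.fg_iff_finiteType _).2 h2
    exact ⟨G, hG⟩
  choose G hG using hfg
  have hGm : ∀ t, ∀ x ∈ G t, mo 0 x ∈ C t := by
    intro t x hx
    have : x ∈ d0 (C t) := by rw [← hG t]; exact Algebra.subset_adjoin hx
    exact this
  have hrt : ∀ t t', mo 0 (H t' / H t) ∈ C t := fun t t' => (h.pb.rt t t').1
  -- a common exponent
  have h1 : ∀ p : (Σ t, {x // x ∈ G t}), ∃ n : ℕ,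
      ∀ t, mo 0 ((H p.1 / H t) ^ n * p.2.1) ∈ C t := by
    rintro ⟨t, x, hx⟩
    choose m hm' using fun t' => h.pb.gl t' t _ (hGm t x hx)
    refine ⟨Finset.univ.sup m, ?_⟩
    intro t'
    have h2 : m t' ≤ Finset.univ.sup m := Finset.le_sup (Finset.mem_univ t')
    obtain ⟨e, he⟩ := Nat.exists_eq_add_of_le h2
    have h3 : (mo 0 ((H t / H t') ^ (Finset.univ.sup m) * x) : ML K Unit) =
        mo 0 (H t / H t') ^ e * (mo 0 (H t / H t') ^ m t' * mo 0 x) := by
      rw [mo_pow, mo_pow, mo_mul, mo_mul, he]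
      congr 1
      ring
    rw [h3]
    exact (C t').mul_mem ((C t').pow_mem (hrt t' t) _) (hm' t')
  choose N hN2 using h1
  let M : ℕ := Finset.univ.sup N
  have hNM : ∀ p, N p ≤ M := fun p => Finset.le_sup (Finset.mem_univ p)
  refine ⟨G, M, hG, fun t t' => ?_, fun t' x hx t => ?_⟩
  · have e2 : (mo 0 (H t' ^ M / H t ^ M) : ML K Unit) = mo 0 (H t' / H t) ^ M := by
      rw [mo_pow, smul_zero, div_pow]
    rw [e2]
    exact (C t).pow_mem (hrt t t') M
  · obtain ⟨e, he⟩ := Nat.exists_eq_add_of_le (hNM ⟨t', x, hx⟩)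
    have e2 : (mo 0 (H t' ^ M * x / H t ^ M) : ML K Unit) =
        mo 0 (H t' / H t) ^ e * mo 0 ((H t' / H t) ^ N ⟨t', x, hx⟩ * x) := by
      rw [mo_pow, mo_mul, he]
      congr 1
      rw [← mul_assoc, ← pow_add, div_pow, add_comm]
      ring
    rw [e2]
    exact (C t).mul_mem ((C t).pow_mem (hrt t t') _) (hN2 ⟨t', x, hx⟩ t)

end core

theorem model : ModelStm.{u} := by
  intro k K _ _ _ Kf 𝒜 W T _ E C H h
  classical
  obtain ⟨G, M, hG, hz1, hz2⟩ := core h
  have hGm : ∀ t, ∀ x ∈ G t, mo 0 x ∈ C t := by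
    intro t x hx
    have : x ∈ d0 (C t) := by rw [← hG t]; exact Algebra.subset_adjoin hx
    exact this
  let z : T ⊕ (Σ t, {x // x ∈ G t}) → K := Sum.elim (fun t => H t ^ M) (fun p => H p.1 ^ M * p.2.1)
  have hz : ∀ t i, mo 0 (z i / z (Sum.inl t)) ∈ C t := by
    intro t i
    rcases i with t' | p
    · exact hz1 t t'
    · exact hz2 p.1 p.2.1 p.2.2 t
  have hz0 : ∀ t, z (Sum.inl t) ≠ 0 := fun t => pow_ne_zero M (h.pb.H0 t)
  have hch : ∀ t, Algebra.adjoin k (Set.range fun i => z i / z (Sum.inl t)) = d0 (C t) := by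
    intro t
    apply le_antisymm
    · rw [Algebra.adjoin_le_iff]
      rintro _ ⟨i, rfl⟩
      exact hz t i
    · rw [← hG t, Algebra.adjoin_le_iff]
      intro x hx
      apply Algebra.subset_adjoin
      refine ⟨Sum.inr ⟨t, x, hx⟩, ?_⟩
      change H t ^ M * x / H t ^ M = x
      have := pow_ne_zero M (h.pb.H0 t)
      field_simp
  refine ⟨T ⊕ (Σ t, {x // x ∈ G t}), inferInstance, z, Set.range Sum.inl, ?_⟩
  refine
    { zK := ?_
      z0 := ?_
      cv := ?_
      sm := ?_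
      aa := ?_ }
  · rintro (t | ⟨t, x, hx⟩)
    · exact Kf.pow_mem (h.pb.HK t) _
    · exact Kf.mul_mem (Kf.pow_mem (h.pb.HK t) _) (h.pb.inF t x ⟨hGm t x hx, trivial⟩)
  · rintro _ ⟨t, rfl⟩
    exact hz0 t
  · intro V hV
    obtain ⟨t, E', ψ, ht⟩ := h.pb.cv V hV
    refine ⟨Sum.inl t, ⟨t, rfl⟩, fun i => ?_⟩
    have h3 := ht.mo (hz t i)
    rw [psi_zero ht.2.1 ht.2.2.1] at h3
    rw [← V.valuation_le_one_iff]
    exact (pow_le_one_iff_of_nonneg zero_le ht.1.ne').1 h3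
  · rintro _ ⟨t, rfl⟩
    rw [hch t]
    exact smooth_d0 (h.sm t)
  · rintro _ ⟨t, rfl⟩
    obtain ⟨a, ha⟩ := h.pb.aa t
    refine ⟨a, ?_⟩
    rw [hch t]
    exact fun x hx => (ha x hx).1

theorem aff : AffStm.{u} := by
  intro k K A _ _ _ _ _ _ g hg Kf hKf T _ E C H h
  classical
  obtain ⟨G, M, hG, hz1, hz2⟩ := core h
  have hGm : ∀ t, ∀ x ∈ G t, mo 0 x ∈ C t := by
    intro t x hx
    have : x ∈ d0 (C t) := by rw [← hG t]; exact Algebra.subset_adjoin hx
    exact this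
  let y : T ⊕ (Σ t, {x // x ∈ G t}) → K := Sum.elim (fun t => H t ^ M) (fun p => H p.1 ^ M * p.2.1)
  have hy : ∀ t i, mo 0 (y i / y (Sum.inl t)) ∈ C t := by
    intro t i
    rcases i with t' | p
    · exact hz1 t t'
    · exact hz2 p.1 p.2.1 p.2.2 t
  have hy0 : ∀ t, y (Sum.inl t) ≠ 0 := fun t => pow_ne_zero M (h.pb.H0 t)
  have hyK : ∀ i, y i ∈ Kf := by
    rintro (t | ⟨t, x, hx⟩)
    · exact Kf.pow_mem (h.pb.HK t) _
    · exact Kf.mul_mem (Kf.pow_mem (h.pb.HK t) _) (h.pb.inF t x ⟨hGm t x hx, trivial⟩)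
  choose na nb hnb hna using fun i => hKf (y i) (hyK i)
  have : Fintype (T ⊕ (Σ t, {x // x ∈ G t})) := Fintype.ofFinite _
  let Dn : A := ∏ i, nb i
  have hDn : g Dn ≠ 0 := by
    rw [map_prod, Finset.prod_ne_zero_iff]
    exact fun i _ => hnb i
  let z : T ⊕ (Σ t, {x // x ∈ G t}) → A := fun i => na i * ∏ j ∈ Finset.univ.erase i, nb j
  have hz : ∀ i, g (z i) = g Dn * y i := by
    intro i
    have h1 : g Dn = g (nb i) * g (∏ j ∈ Finset.univ.erase i, nb j) := by
      rw [← map_mul, Finset.mul_prod_erase Finset.univ nb (Finset.mem_univ i)]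
    rw [h1, hna i]
    change g (na i * ∏ j ∈ Finset.univ.erase i, nb j) = _
    rw [map_mul]
    have := hnb i
    field_simp
  have hdiv : ∀ i j, g (z i) / g (z j) = y i / y j := by
    intro i j
    rw [hz, hz, mul_div_mul_left _ _ hDn]
  have hz0 : ∀ t, z (Sum.inl t) ≠ 0 := by
    intro t h0
    have h1 := hz (Sum.inl t)
    rw [h0, map_zero] at h1
    exact mul_ne_zero hDn (hy0 t) h1.symm
  refine H920R2.hasResolution_of_charts' g hg z (Set.range Sum.inl) ?_ ?_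
  · intro V hV
    obtain ⟨t, E', ψ, ht⟩ := h.pb.cv V hV
    refine ⟨Sum.inl t, ⟨t, rfl⟩, hz0 t, fun i => ?_⟩
    rw [hdiv]
    have h3 := ht.mo (hy t i)
    rw [psi_zero ht.2.1 ht.2.2.1] at h3
    rw [← V.valuation_le_one_iff]
    exact (pow_le_one_iff_of_nonneg zero_le ht.1.ne').1 h3
  · rintro _ ⟨t, rfl⟩ -
    obtain ⟨-, haa⟩ := h.pb.aa t
    refine ⟨d0 (C t), smooth_d0 (h.sm t), fun a => (haa (g a) ⟨a, rfl⟩).1, fun i => ?_, ?_⟩
    · rw [hdiv]
      exact hy t i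
    · rw [← hG t, Algebra.adjoin_le_iff]
      intro x hx
      apply Algebra.subset_adjoin
      right
      refine ⟨Sum.inr ⟨t, x, hx⟩, ?_⟩
      change g (z (Sum.inr ⟨t, x, hx⟩)) / g (z (Sum.inl t)) = x
      rw [hdiv]
      change H t ^ M * x / H t ^ M = x
      have := pow_ne_zero M (h.pb.H0 t)
      field_simp

end Pool.Agent.W440.ET
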